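import Pool.Agent.Helper18.EW.Goals

/-! # Project EW, packet E6a (number of the old points alive) -/

set_option autoImplicit false

namespace Pool.Agent.Helper90.EW

open Finset
open Pool.Agent.Helper43.Hw (T na va lz Play aa ac sc oo sk U Dd Sd Pn nx bb np GoalH1)
open Pool.Agent.Helper18.EW

theorem count {μ R N : ℕ} {κ x : ℕ → ℕ} {y m : ℕ} (hN : κ y ≤ N) {A : Finset ℕ}
    (hA : A ⊆ range (κ y)) (h : ∀ c ∈ A, m ≤ 2 * va μ R κ x c y) :
    m * A.card ≤ 2 * lz μ R N κ x y := by
  have h1 := Finset.card_nsmul_le_sum A (fun c => 2 * va μ R κ x c y) m h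
  rw [smul_eq_mul, ← Finset.mul_sum] at h1
  have h2 : ∑ c ∈ A, va μ R κ x c y ≤ lz μ R N κ x y := by
    unfold lz
    exact Finset.sum_le_sum_of_subset (hA.trans (range_subset_range.2 hN))
  calc m * A.card = A.card * m := mul_comm _ _
    _ ≤ 2 * ∑ c ∈ A, va μ R κ x c y := h1
    _ ≤ 2 * lz μ R N κ x y := by omega

theorem len_mono {R β : ℕ} {ℓ : ℕ → ℕ} (hL : Len R β ℓ) {a b : ℕ} (hab : a ≤ b) (hb : b < R) :
    ℓ a ≤ ℓ b := by
  induction b, hab using Nat.le_induction with
  | base => exact le_rfl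
  | succ m hm ih =>
    have h1 := ih (by omega)
    rcases Nat.eq_zero_or_pos m with h0 | h0
    · have h2 := hL.z1
      rw [h0] at h1 ⊢
      simp only [Nat.zero_add]
      omega
    · have h2 := hL.st m h0 hb
      omega

theorem goalE6a (h1 : GoalH1) : GoalE6a := by
  intro μ R N β ℓ κ x Y hμ hR hL hP hYR hYl
  obtain ⟨h1a, -, h1c, -, -, h1f, -⟩ := h1 μ R N κ x hμ hR hP
  set A := (range (κ Y)).filter (fun c => 0 < va μ R κ x c Y) with hA
  have hAoo : oo μ R κ x Y = A.card := rfl
  set A1 := A.filter (fun c => μ ≤ 2 * (ac R κ x c + μ - Y)) with hA1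
  set A2 := A.filter (fun c => ¬ μ ≤ 2 * (ac R κ x c + μ - Y)) with hA2
  have hcard : A1.card + A2.card = A.card := Finset.card_filter_add_card_filter_not _
  -- first part
  have e1 : μ * A1.card ≤ 2 * ℓ Y := by
    have g1 := count (μ := μ) (R := R) (N := N) (κ := κ) (x := x) (y := Y) (m := μ) (hP.le Y hYR)
      (A := A1) ((filter_subset _ _).trans (filter_subset _ _)) (fun c hc => by
        rw [hA1, mem_filter, hA, mem_filter, mem_range] at hc
        have := (h1f Y hYR c hc.1.1).2.2.1
        omega)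
    have g2 := hYl Y le_rfl
    omega
  -- second part
  have e2 : μ * A2.card ≤ 2 * ℓ Y + μ := by
    rcases A2.eq_empty_or_nonempty with he | ⟨c0, hc0⟩
    · rw [he, card_empty]; omega
    set y' := Y - (μ + 1) / 2 with hy'
    have hprop : ∀ c ∈ A2, c < κ Y ∧ Y < ac R κ x c + μ ∧ ac R κ x c ≤ y' ∧
        y' + (μ + 1) / 2 = Y := by
      intro c hc
      rw [hA2, mem_filter, hA, mem_filter, mem_range] at hc
      have g1 := (h1f Y hYR c hc.1.1).2.2.2.1 hc.1.2
      have g2 := hc.2
      refine ⟨hc.1.1, g1, ?_, ?_⟩ <;> omega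
    have hy'Y : y' ≤ Y := by omega
    have hy'R : y' < R := by omega
    have hsub : A2.filter (fun c => c < κ y') ⊆ range (κ y') := by
      intro c hc
      rw [mem_filter] at hc
      exact mem_range.2 hc.2
    have hmono : ℓ y' ≤ ℓ Y := len_mono hL hy'Y hYR
    have e3 : μ * (A2.filter (fun c => c < κ y')).card ≤ 2 * ℓ Y := by
      have g1 := count (μ := μ) (R := R) (N := N) (κ := κ) (x := x) (y := y') (m := μ)
        (hP.le y' hy'R) hsub (fun c hc => by
          rw [mem_filter] at hc
          obtain ⟨g1, g2, g3, g4⟩ := hprop c hc.1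
          have := (h1f y' hy'R c hc.2).2.2.1
          omega)
      have g2 := hYl y' hy'Y
      omega
    have e4 : A2 ⊆ A2.filter (fun c => c < κ y') ∪ {κ y'} := by
      intro c hc
      obtain ⟨g1, g2, g3, g4⟩ := hprop c hc
      rw [mem_union, mem_filter, mem_singleton]
      have g5 := (h1a c y' hy'R).2
      have g6 : ¬ aa κ x y' ≤ c := fun h => by
        have := g5.1 h
        omega
      unfold aa at g6
      by_cases hlt : c < κ y'
      · exact Or.inl ⟨hc, hlt⟩
      · right
        split_ifs at g6 <;> omega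
    have e5 : A2.card ≤ (A2.filter (fun c => c < κ y')).card + 1 := by
      refine (card_le_card e4).trans ((card_union_le _ _).trans ?_)
      rw [card_singleton]
    calc μ * A2.card ≤ μ * ((A2.filter (fun c => c < κ y')).card + 1) :=
          Nat.mul_le_mul_left _ e5
      _ = μ * (A2.filter (fun c => c < κ y')).card + μ := by ring
      _ ≤ 2 * ℓ Y + μ := by omega
  rw [hAoo, ← hcard, mul_add]
  omega

end Pool.Agent.Helper90.EW
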